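import Pool.Agent.Helper69.UX.StA

set_option autoImplicit false

/-!
Project UX, module HAR: Harris' inequality.
-/

namespace Pool.Agent.Helper34.UX

open Finset Filter Pool.Agent.Helper82.CN Pool.Agent.Helper11.PV Pool.Agent.Helper69.VX
  Pool.Agent.Helper69.UX

private theorem cons_le {N : ℕ} (b b' : Bool) (ω ω' : Fin N → Bool) (hb : b ≤ b') (h : ω ≤ ω') :
    (Fin.cons b ω : Fin (N + 1) → Bool) ≤ Fin.cons b' ω' := by
  intro i
  refine Fin.cases ?_ (fun j => ?_) i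
  · rw [Fin.cons_zero, Fin.cons_zero]
    exact hb
  · rw [Fin.cons_succ, Fin.cons_succ]
    exact h j

private theorem two_pt (p a0 a1 b0 b1 c0 c1 : ℝ) (h0 : 0 ≤ p) (h1 : p ≤ 1) (ha : a0 ≤ a1)
    (hb : b0 ≤ b1) (hc0 : a0 * b0 ≤ c0) (hc1 : a1 * b1 ≤ c1) :
    ((1 - p) * a0 + p * a1) * ((1 - p) * b0 + p * b1) ≤ (1 - p) * c0 + p * c1 := by
  have hq : 0 ≤ 1 - p := by linarith
  have h2 : (1 - p) * (a0 * b0) ≤ (1 - p) * c0 := mul_le_mul_of_nonneg_left hc0 hq
  have h3 : p * (a1 * b1) ≤ p * c1 := mul_le_mul_of_nonneg_left hc1 h0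
  have h4 : 0 ≤ p * (1 - p) * ((a1 - a0) * (b1 - b0)) :=
    mul_nonneg (mul_nonneg h0 hq) (mul_nonneg (by linarith) (by linarith))
  have h5 : ((1 - p) * a0 + p * a1) * ((1 - p) * b0 + p * b1) =
      (1 - p) * (a0 * b0) + p * (a1 * b1) - p * (1 - p) * ((a1 - a0) * (b1 - b0)) := by ring
  linarith

private theorem har_fin (p : ℝ) (h0 : 0 ≤ p) (h1 : p ≤ 1) : ∀ (N : ℕ)
    (F G : (Fin N → Bool) → ℝ), Monotone F → Monotone G →
      EE p F * EE p G ≤ EE p (fun ω => F ω * G ω) := by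
  intro N
  induction N with
  | zero =>
    intro F G _ _
    rw [EE_zero, EE_zero, EE_zero]
  | succ N ih =>
    intro F G hF hG
    rw [EE_succ p F, EE_succ p G, EE_succ p (fun ω => F ω * G ω)]
    refine two_pt p _ _ _ _ _ _ h0 h1 ?_ ?_ ?_ ?_
    · exact EE_mono h0 h1 fun ω => hF (cons_le _ _ _ _ (Bool.false_le _) (le_refl _))
    · exact EE_mono h0 h1 fun ω => hG (cons_le _ _ _ _ (Bool.false_le _) (le_refl _))
    · exact ih _ _ (fun ω ω' h => hF (cons_le _ _ _ _ (le_refl _) h))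
        (fun ω ω' h => hG (cons_le _ _ _ _ (le_refl _) h))
    · exact ih _ _ (fun ω ω' h => hF (cons_le _ _ _ _ (le_refl _) h))
        (fun ω ω' h => hG (cons_le _ _ _ _ (le_refl _) h))

private theorem har_mono (p : ℝ) (h0 : 0 ≤ p) (h1 : p ≤ 1) (ι : Type) [Fintype ι]
    [DecidableEq ι] (F G : (ι → Bool) → ℝ) (hF : Monotone F) (hG : Monotone G) :
    EE p F * EE p G ≤ EE p (fun ω => F ω * G ω) := by
  have e := Fintype.equivFin ι
  rw [← EE_equiv p e F, ← EE_equiv p e G, ← EE_equiv p e (fun ω => F ω * G ω)]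
  exact har_fin p h0 h1 _ _ _ (fun ω ω' h => hF (fun i => h (e i)))
    (fun ω ω' h => hG (fun i => h (e i)))

theorem hHAR : StHAR := by
  intro p ι _ _ F G h0 h1 h
  rcases h with ⟨hF, hG⟩ | ⟨hF, hG⟩
  · exact har_mono p h0 h1 ι F G hF hG
  · have h2 := har_mono p h0 h1 ι (fun ω => (-1) * F ω) (fun ω => (-1) * G ω)
      (fun ω ω' h => by
        have := hF h
        change (-1) * F ω ≤ (-1) * F ω'
        linarith)
      (fun ω ω' h => by
        have := hG h
        change (-1) * G ω ≤ (-1) * G ω'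
        linarith)
    rw [EE_mul_left, EE_mul_left] at h2
    have h3 : (fun ω => (-1) * F ω * ((-1) * G ω)) = fun ω => F ω * G ω := by
      funext ω
      ring
    rw [h3] at h2
    linarith

end Pool.Agent.Helper34.UX
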